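import Mathlib
import Pool.Agent.Helper20.CpDef

namespace Pool.Agent.Helper85.CP

open Pool.Agent.Helper20

/-- `C_p(X)` condenses linearly onto `C_p(Y)`: there is a linear map of `C_p(X)` onto `C_p(Y)`
which is continuous and bijective (a linear condensation). -/
def LinearlyCondenses (X Y : Type) [TopologicalSpace X] [TopologicalSpace Y] : Prop :=
  ∃ Φ : Cp X →ₗ[ℝ] Cp Y, Continuous Φ ∧ Function.Bijective Φ

end Pool.Agent.Helper85.CP
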