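import Mathlib

/-!
# Bounded sequences, finitely supported rational sequences, and density

`Bd` is the space of bounded real sequences, `A` the countable set of finitely supported rational
sequences, `T g a = ∑ a_i g_i`. The main facts: `A` is dense in the algebraic dual of `Bd`
(for pointwise convergence), and fewer than continuum many vectors do not span `Bd`.
-/

namespace Pool.Agent.Helper85.CP

open Filter Topology Set Cardinal

noncomputable section

/-- bounded sequences -/
def Bd : Submodule ℝ (ℕ → ℝ) where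
  carrier := {f | ∃ C : ℝ, ∀ n, |f n| ≤ C}
  add_mem' := by
    rintro f g ⟨C, hC⟩ ⟨D, hD⟩
    exact ⟨C + D, fun n => (abs_add_le _ _).trans (add_le_add (hC n) (hD n))⟩
  zero_mem' := ⟨0, fun n => by simp⟩
  smul_mem' := by
    rintro c f ⟨C, hC⟩
    refine ⟨|c| * C, fun n => ?_⟩
    simp only [Pi.smul_apply, smul_eq_mul, abs_mul]
    exact mul_le_mul_of_nonneg_left (hC n) (abs_nonneg _)

/-- finitely supported rational sequences -/
abbrev A := ℕ →₀ ℚ

/-- the pairing -/
def T (g : ℕ → ℝ) (a : A) : ℝ := ∑ i ∈ a.support, (a i : ℝ) * g i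

lemma T_eq_sum (g : ℕ → ℝ) (a : A) {s : Finset ℕ} (hs : a.support ⊆ s) :
    T g a = ∑ i ∈ s, (a i : ℝ) * g i := by
  unfold T
  refine Finset.sum_subset hs fun i _ hi => ?_
  rw [Finsupp.notMem_support_iff.1 hi]; simp

lemma T_add (g h : ℕ → ℝ) (a : A) : T (g + h) a = T g a + T h a := by
  simp [T, mul_add, Finset.sum_add_distrib]

lemma T_smul (c : ℝ) (g : ℕ → ℝ) (a : A) : T (c • g) a = c * T g a := by
  simp only [T, Pi.smul_apply, smul_eq_mul, Finset.mul_sum]
  exact Finset.sum_congr rfl fun i _ => by ring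

/-- `T` as a linear map on bounded sequences -/
def TL : Bd →ₗ[ℝ] (A → ℝ) where
  toFun g := T g.1
  map_add' g h := by funext a; exact T_add _ _ _
  map_smul' c g := by funext a; exact T_smul _ _ _

lemma TL_zero_pt (g : Bd) : TL g 0 = 0 := by
  change T g.1 0 = 0
  simp [T]

lemma TL_single (g : Bd) (i : ℕ) : TL g (Finsupp.single i 1) = g.1 i := by
  change T g.1 _ = _
  rw [T_eq_sum g.1 _ Finsupp.support_single_subset]
  simp

/-- real finitely supported sequences pair with bounded sequences; any linear functional is matched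
exactly on finitely many bounded sequences. -/
lemma exists_real (b : Module.Dual ℝ Bd) (G : Finset Bd) :
    ∃ c : ℕ →₀ ℝ, ∀ g ∈ G, ∑ i ∈ c.support, c i * g.1 i = b g := by
  classical
  let L : (ℕ →₀ ℝ) →ₗ[ℝ] (G → ℝ) :=
    LinearMap.pi fun g => Finsupp.linearCombination ℝ g.1.1
  by_cases hmem : (fun g : G => b g.1) ∈ LinearMap.range L
  · obtain ⟨c, hc⟩ := hmem
    refine ⟨c, fun g hg => ?_⟩
    have := congrFun hc ⟨g, hg⟩
    simp only [L, LinearMap.pi_apply, Finsupp.linearCombination_apply, Finsupp.sum] at this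
    simpa using this
  · exfalso
    obtain ⟨φ, hφ, hker⟩ := Submodule.exists_le_ker_of_notMem hmem
    apply hφ
    have hrep : ∀ v : G → ℝ, φ v = ∑ g : G, v g * φ (Pi.single g 1) := by
      intro v
      conv_lhs => rw [LinearMap.pi_apply_eq_sum_univ φ v]
      refine Finset.sum_congr rfl fun g _ => ?_
      rw [smul_eq_mul]
      congr 2
      funext j
      simp [Pi.single_apply, eq_comm]
    have hz : ∑ g : G, φ (Pi.single g 1) • g.1 = 0 := by
      apply Subtype.ext
      funext i
      have h1 : φ (L (Finsupp.single i 1)) = 0 := hker ⟨_, rfl⟩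
      rw [hrep] at h1
      simp only [L, LinearMap.pi_apply, Finsupp.linearCombination_single, one_smul] at h1
      simp only [Submodule.coe_sum, Submodule.coe_smul, Finset.sum_apply, Pi.smul_apply,
        smul_eq_mul, Submodule.coe_zero, Pi.zero_apply]
      rw [← h1]
      exact Finset.sum_congr rfl fun g _ => by ring
    rw [hrep]
    have := congrArg b hz
    rw [map_sum, map_zero] at this
    rw [← this]
    refine Finset.sum_congr rfl fun g _ => ?_
    rw [map_smul, smul_eq_mul]; ring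

/-- `A` is dense in the algebraic dual of `Bd`. -/
lemma exists_approx (b : Module.Dual ℝ Bd) (G : Finset Bd) {δ : ℝ} (hδ : 0 < δ) :
    ∃ a : A, ∀ g ∈ G, |TL g a - b g| < δ := by
  classical
  obtain ⟨c, hc⟩ := exists_real b G
  set S : ℝ := ∑ g ∈ G, ∑ i ∈ c.support, |g.1 i| with hS
  have hS0 : 0 ≤ S := Finset.sum_nonneg fun g _ => Finset.sum_nonneg fun i _ => abs_nonneg _
  have hη : 0 < δ / (S + 1) := by positivity
  have hq : ∀ i, ∃ q : ℚ, |(q : ℝ) - c i| < δ / (S + 1) := by
    intro i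
    obtain ⟨q, hq1, hq2⟩ := exists_rat_btwn (show c i - δ / (S + 1) < c i + δ / (S + 1) by linarith)
    exact ⟨q, abs_lt.2 ⟨by linarith, by linarith⟩⟩
  choose q hq using hq
  let a : A := Finsupp.onFinset c.support (fun i => if i ∈ c.support then q i else 0)
    (fun i hi => by
      by_contra h
      rw [if_neg h] at hi
      exact hi rfl)
  refine ⟨a, fun g hg => ?_⟩
  have hsub : a.support ⊆ c.support := Finsupp.support_onFinset_subset
  change |T g.1 a - b g| < δ
  rw [T_eq_sum g.1 a hsub, ← hc g hg, ← Finset.sum_sub_distrib]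
  have h1 : ∀ i ∈ c.support, |(a i : ℝ) * g.1 i - c i * g.1 i| ≤ δ / (S + 1) * |g.1 i| := by
    intro i hi
    have : a i = q i := by
      simp only [a, Finsupp.onFinset_apply, if_pos hi]
    rw [this, ← sub_mul, abs_mul]
    exact mul_le_mul_of_nonneg_right (hq i).le (abs_nonneg _)
  have h2 : ∑ i ∈ c.support, |g.1 i| ≤ S :=
    Finset.single_le_sum (f := fun g : Bd => ∑ i ∈ c.support, |g.1 i|)
      (fun g _ => Finset.sum_nonneg fun i _ => abs_nonneg _) hg
  calc |∑ i ∈ c.support, ((a i : ℝ) * g.1 i - c i * g.1 i)|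
      ≤ ∑ i ∈ c.support, |(a i : ℝ) * g.1 i - c i * g.1 i| := Finset.abs_sum_le_sum_abs _ _
    _ ≤ ∑ i ∈ c.support, δ / (S + 1) * |g.1 i| := Finset.sum_le_sum h1
    _ = δ / (S + 1) * ∑ i ∈ c.support, |g.1 i| := by rw [Finset.mul_sum]
    _ ≤ δ / (S + 1) * S := mul_le_mul_of_nonneg_left h2 hη.le
    _ < δ := by
      rw [div_mul_eq_mul_div, div_lt_iff₀ (by positivity)]
      nlinarith

/-- Change a functional outside a subspace so that it is large at finitely many vectors outside. -/
lemma exists_large (E : Submodule ℝ Bd) (b0 : Module.Dual ℝ Bd) (H : Finset Bd)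
    (hH : ∀ h ∈ H, h ∉ E) (M : ℝ) :
    ∃ b : Module.Dual ℝ Bd, (∀ g ∈ E, b g = b0 g) ∧ ∀ h ∈ H, M < |b h| := by
  classical
  obtain ⟨φ, hφ⟩ := Module.exists_dual_forall_apply_ne_zero (K := ℝ) (M := Bd ⧸ E)
    (fun h : H => E.mkQ h.1) (fun h hz => hH h.1 h.2 (by simpa using hz))
  set ψ : Module.Dual ℝ Bd := φ.comp E.mkQ with hψ
  have hψ0 : ∀ h ∈ H, ψ h ≠ 0 := fun h hh => hφ ⟨h, hh⟩
  have hψE : ∀ g ∈ E, ψ g = 0 := by
    intro g hg
    have : E.mkQ g = 0 := by simpa using hg
    rw [hψ, LinearMap.comp_apply, this, map_zero]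
  have hlim : ∀ h ∈ H, ∀ᶠ s : ℝ in atTop, M < |(b0 + s • ψ) h| := by
    intro h hh
    have h1 : Tendsto (fun s : ℝ => |(b0 + s • ψ) h|) atTop atTop := by
      have h2 : Tendsto (fun s : ℝ => s * |ψ h| - |b0 h|) atTop atTop :=
        tendsto_atTop_add_const_right _ _ (tendsto_id.atTop_mul_const (abs_pos.2 (hψ0 h hh)))
      refine tendsto_atTop_mono (fun s => ?_) h2
      have e : (b0 + s • ψ) h = b0 h + s * ψ h := rfl
      rw [e]
      have h3 : |s * ψ h| ≤ |b0 h + s * ψ h| + |b0 h| := by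
        have := abs_sub (b0 h + s * ψ h) (b0 h)
        simpa using this
      have h4 : s * |ψ h| ≤ |s * ψ h| := by
        rw [abs_mul]
        exact mul_le_mul_of_nonneg_right (le_abs_self _) (abs_nonneg _)
      linarith
    exact h1.eventually_gt_atTop M
  obtain ⟨s, hs⟩ := ((Filter.eventually_all_finset H).2 hlim).exists
  refine ⟨b0 + s • ψ, fun g hg => ?_, hs⟩
  have e : (b0 + s • ψ) g = b0 g + s * ψ g := rfl
  rw [e, hψE g hg]; ring

/-- the sequence of powers -/
def pw (r : Ioo (0 : ℝ) 1) : Bd := ⟨fun n => r.1 ^ n, 1, fun n => by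
  rw [abs_of_nonneg (pow_nonneg r.2.1.le n)]
  exact pow_le_one₀ r.2.1.le r.2.2.le⟩

/-- the shift -/
def sh : Module.End ℝ Bd where
  toFun f := ⟨fun n => f.1 (n + 1), by
    obtain ⟨C, hC⟩ := f.2
    exact ⟨C, fun n => hC (n + 1)⟩⟩
  map_add' _ _ := rfl
  map_smul' _ _ := rfl

lemma linearIndependent_pw : LinearIndependent ℝ pw := by
  refine Module.End.eigenvectors_linearIndependent' sh (fun r : Ioo (0 : ℝ) 1 => r.1)
    Subtype.val_injective pw fun r => ?_
  refine Module.End.hasEigenvector_iff.2 ⟨?_, ?_⟩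
  · rw [Module.End.mem_eigenspace_iff]
    apply Subtype.ext
    funext n
    change r.1 ^ (n + 1) = r.1 * r.1 ^ n
    rw [pow_succ]; ring
  · intro h
    have := congrFun (congrArg Subtype.val h) 0
    change r.1 ^ 0 = (0 : ℝ) at this
    simp at this

lemma exists_notMem_span (K : Set Bd) (hK : #K < 𝔠) : ∃ f : Bd, f ∉ Submodule.span ℝ K := by
  by_contra hcon
  push Not at hcon
  have htop : Submodule.span ℝ K = ⊤ := Submodule.eq_top_iff'.2 hcon
  have h1 : Module.rank ℝ Bd ≤ #K := by
    rw [← rank_top ℝ Bd, ← htop]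
    exact rank_span_le K
  have h2 : 𝔠 ≤ Module.rank ℝ Bd := by
    have := linearIndependent_pw.cardinal_le_rank
    rwa [Cardinal.mk_Ioo_real (by norm_num)] at this
  exact absurd (h2.trans h1) (not_le.2 hK)

end

end Pool.Agent.Helper85.CP
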