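import Mathlib
import Pool.Agent.Helper85.CP.Dense

/-!
# The filter

There is a filter `F` on the countable set `A` such that `T 1 → 1`, `|T h| → ∞` for all bounded `h`
which are not constant, and for every continuous `ψ` there is a bounded `f` with
`ψ - T f → ψ 0` along `F`.
-/

namespace Pool.Agent.Helper85.CP

open Filter Topology Set Cardinal

noncomputable section

/-- the weak topology on `A` given by the functions `T g`, `g` in `E` -/
@[instance_reducible] def tauE (E : Set Bd) : TopologicalSpace A :=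
  ⨅ g : E, TopologicalSpace.induced (TL g.1) inferInstance

/-- the topology given by all the functions `T g` -/
@[instance_reducible] def tau2 : TopologicalSpace A := tauE univ

lemma nhds_tauE (E : Set Bd) (a : A) :
    @nhds A (tauE E) a = ⨅ g : E, comap (TL g.1) (𝓝 (TL g.1 a)) := by
  unfold tauE
  rw [nhds_iInf]
  refine iInf_congr fun g => ?_
  rw [nhds_induced]

lemma continuous_TL {E : Set Bd} {g : Bd} (hg : g ∈ E) : Continuous[tauE E, _] (TL g) := by
  rw [continuous_iff_le_induced]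
  exact iInf_le (fun g : E => TopologicalSpace.induced (TL g.1) inferInstance) ⟨g, hg⟩

lemma continuous_TL2 (g : Bd) : Continuous[tau2, _] (TL g) := continuous_TL (mem_univ g)

lemma tauE_mono {E E' : Set Bd} (h : E ⊆ E') : tauE E' ≤ tauE E := by
  refine le_iInf fun g => ?_
  exact iInf_le (fun g : E' => TopologicalSpace.induced (TL g.1) inferInstance) ⟨g.1, h g.2⟩

lemma control {θ : A → ℝ} (hθ : Continuous[tau2, _] θ) :
    ∃ K : Set Bd, K.Countable ∧ Continuous[tauE K, _] θ := by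
  have h1 : ∀ (a : A) (n : ℕ), ∃ t : Finset (univ : Set Bd),
      θ ⁻¹' (Metric.ball (θ a) (1 / (n + 1))) ∈ ⨅ g ∈ t, comap (TL g.1) (𝓝 (TL g.1 a)) := by
    intro a n
    have h2 : θ ⁻¹' (Metric.ball (θ a) (1 / (n + 1))) ∈ @nhds A tau2 a :=
      (@Continuous.continuousAt A ℝ tau2 _ θ a hθ) (Metric.ball_mem_nhds _ (by positivity))
    unfold tau2 at h2
    rw [nhds_tauE, mem_iInf_finite] at h2
    exact h2
  choose t ht using h1
  refine ⟨⋃ a, ⋃ n, (Subtype.val '' (t a n : Set (univ : Set Bd))), ?_, ?_⟩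
  · refine countable_iUnion fun a => countable_iUnion fun n => ?_
    exact ((t a n).finite_toSet.image _).countable
  · rw [@continuous_iff_continuousAt A ℝ (tauE _) _ θ]
    intro a
    unfold ContinuousAt
    rw [Metric.nhds_basis_ball_inv_nat_succ.tendsto_right_iff]
    intro n _
    rw [nhds_tauE]
    have h3 := ht a n
    have h4 : (⨅ g : (⋃ a, ⋃ n, (Subtype.val '' (t a n : Set (univ : Set Bd))) : Set Bd),
        comap (TL g.1) (𝓝 (TL g.1 a))) ≤ ⨅ g ∈ t a n, comap (TL g.1) (𝓝 (TL g.1 a)) := by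
      refine le_iInf₂ fun g hg => ?_
      exact iInf_le (fun g : (⋃ a, ⋃ n, (Subtype.val '' (t a n : Set (univ : Set Bd))) : Set Bd) =>
        comap (TL g.1) (𝓝 (TL g.1 a)))
        ⟨g.1, mem_iUnion.2 ⟨a, mem_iUnion.2 ⟨n, ⟨g, hg, rfl⟩⟩⟩⟩
    exact h4 h3

/-- the constant sequence -/
def one : Bd := ⟨fun _ => 1, 1, fun _ => by simp⟩

/-- the non-constant bounded sequences -/
abbrev NC := {h : Bd // h ∉ Submodule.span ℝ ({one} : Set Bd)}

/-- largeness of all `T h` -/
def Lar : Filter A := ⨅ h : NC, comap (fun a => |TL h.1 a|) atTop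

/-- the initial filter -/
def Z0 : Filter A := comap (TL one) (𝓝 1) ⊓ Lar

/-- filter of approximation of a functional -/
def Nb (b : Module.Dual ℝ Bd) : Filter A := ⨅ g : Bd, comap (TL g) (𝓝 (b g))

instance Nb_neBot (b : Module.Dual ℝ Bd) : (Nb b).NeBot := by
  rw [neBot_iff]
  intro hbot
  have h1 : (∅ : Set A) ∈ Nb b := by rw [hbot]; trivial
  unfold Nb at h1
  rw [mem_iInf_finite] at h1
  obtain ⟨G, hG⟩ := h1
  rw [mem_iInf_finset] at hG
  obtain ⟨p, hp, hpe⟩ := hG
  have h2 : ∀ g ∈ G, ∃ ε > 0, ∀ a, |TL g a - b g| < ε → a ∈ p g := by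
    intro g hg
    obtain ⟨V, hV, hVp⟩ := mem_comap.1 (hp g hg)
    obtain ⟨ε, hε, hεV⟩ := Metric.mem_nhds_iff.1 hV
    exact ⟨ε, hε, fun a ha => hVp (hεV (by rw [Metric.mem_ball, Real.dist_eq]; exact ha))⟩
  choose! ε hε hε' using h2
  have h3 : ∃ δ > 0, ∀ g ∈ G, δ ≤ ε g := by
    by_cases hne : G.Nonempty
    · refine ⟨G.inf' hne ε, ?_, fun g hg => Finset.inf'_le _ hg⟩
      rw [gt_iff_lt, Finset.lt_inf'_iff]
      exact fun g hg => hε g hg
    · rw [Finset.not_nonempty_iff_eq_empty] at hne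
      exact ⟨1, one_pos, by simp [hne]⟩
  obtain ⟨δ, hδ, hδ'⟩ := h3
  obtain ⟨a, ha⟩ := exists_approx b G hδ
  have : a ∈ (∅ : Set A) := by
    rw [hpe]
    simp only [mem_iInter]
    exact fun g hg => hε' g hg a ((ha g hg).trans_le (hδ' g hg))
  exact this

lemma tendsto_Nb (b : Module.Dual ℝ Bd) (g : Bd) : Tendsto (TL g) (Nb b) (𝓝 (b g)) :=
  tendsto_iff_comap.2 (iInf_le _ g)

/-- sets generated by open sets of `tauE E` -/
def Reg (E : Set Bd) (F : Filter A) : Prop := ∀ U ∈ F, @interior A (tauE E) U ∈ F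

lemma Reg.comap {E : Set Bd} {θ : A → ℝ} (hθ : Continuous[tauE E, _] θ) (t : ℝ) :
    Reg E (comap θ (𝓝 t)) := by
  intro U hU
  obtain ⟨V, hV, hVU⟩ := mem_comap.1 hU
  obtain ⟨V', hV'V, hV'o, htV'⟩ := mem_nhds_iff.1 hV
  refine mem_of_superset (preimage_mem_comap (hV'o.mem_nhds htV')) ?_
  refine @interior_maximal A (tauE E) _ _ ((preimage_mono hV'V).trans hVU) ?_
  exact @IsOpen.preimage A ℝ (tauE E) _ θ hθ V' hV'o

lemma Reg.iInf {E : Set Bd} {ι : Type} {F : ι → Filter A} (h : ∀ i, Reg E (F i)) :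
    Reg E (⨅ i, F i) := by
  intro U hU
  obtain ⟨I, hI, V, hV, rfl⟩ := mem_iInf.1 hU
  have := hI.to_subtype
  rw [@interior_iInter_of_finite A (tauE E)]
  exact mem_iInf_of_iInter hI (fun i => h i.1 _ (hV i)) Subset.rfl

lemma Reg.inf {E : Set Bd} {F F' : Filter A} (h : Reg E F) (h' : Reg E F') :
    Reg E (F ⊓ F') := by
  intro U hU
  obtain ⟨V, hV, V', hV', rfl⟩ := mem_inf_iff.1 hU
  rw [@interior_inter A (tauE E)]
  exact inter_mem_inf (h V hV) (h' V' hV')

lemma sUnion_card {ι : Type} (hι : #ι < 𝔠) (K : ι → Set Bd) (hK : ∀ i, (K i).Countable) :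
    #(⋃ i, K i : Set Bd) < 𝔠 := by
  refine (mk_iUnion_le K).trans_lt ?_
  refine mul_lt_of_lt aleph0_le_continuum hι ?_
  refine lt_of_le_of_lt ?_ aleph0_lt_continuum
  exact ciSup_le' fun i => (hK i).le_aleph0

/-- Extension step. -/
lemma extend {ι : Type} (hι : #ι < 𝔠) (θ : ι → A → ℝ) (hθ : ∀ i, Continuous[tau2, _] (θ i))
    (t : ι → ℝ) (hne : (Z0 ⊓ ⨅ i, comap (θ i) (𝓝 (t i))).NeBot) (ψ : A → ℝ)
    (hψ : Continuous[tau2, _] ψ) :
    ∃ f : Bd, (Z0 ⊓ (⨅ i, comap (θ i) (𝓝 (t i))) ⊓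
      comap (fun a => ψ a - TL f a) (𝓝 (ψ 0))).NeBot := by
  classical
  set F : Filter A := Z0 ⊓ ⨅ i, comap (θ i) (𝓝 (t i)) with hF
  have hFone : Tendsto (TL one) F (𝓝 1) :=
    tendsto_iff_comap.2 (inf_le_left.trans inf_le_left)
  have hFlar : ∀ h : Bd, h ∉ Submodule.span ℝ ({one} : Set Bd) →
      Tendsto (fun a => |TL h a|) F atTop := fun h hh =>
    tendsto_iff_comap.2 ((inf_le_left.trans inf_le_right).trans
      (iInf_le (fun h : NC => comap (fun a => |TL h.1 a|) atTop) ⟨h, hh⟩))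
  by_cases hc : ∀ g : Bd, Tendsto (fun a => |ψ a + TL g a|) F atTop
  · -- Case 2
    choose K hKc hK using fun i => control (hθ i)
    obtain ⟨Kψ, hKψc, hKψ⟩ := control hψ
    set K' : Set Bd := (⋃ i, K i) ∪ (Kψ ∪ {one}) with hK'
    have hcard : #K' < 𝔠 := by
      refine (mk_union_le _ _).trans_lt ?_
      refine add_lt_of_lt aleph0_le_continuum (sUnion_card hι K hKc) ?_
      exact ((hKψc.union (countable_singleton one)).le_aleph0).trans_lt aleph0_lt_continuum
    obtain ⟨f, hf⟩ := exists_notMem_span K' hcard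
    set E : Submodule ℝ Bd := Submodule.span ℝ K' with hE
    have hKE : ∀ i, K i ⊆ (E : Set Bd) := fun i =>
      ((subset_iUnion K i).trans subset_union_left).trans Submodule.subset_span
    have hKψE : Kψ ⊆ (E : Set Bd) :=
      (subset_union_left.trans subset_union_right).trans Submodule.subset_span
    have h1E : one ∈ (E : Set Bd) :=
      Submodule.subset_span (Or.inr (Or.inr rfl))
    have hθE : ∀ i, Continuous[tauE (E : Set Bd), _] (θ i) := fun i =>
      continuous_le_dom (tauE_mono (hKE i)) (hK i)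
    have hψE : Continuous[tauE (E : Set Bd), _] ψ := continuous_le_dom (tauE_mono hKψE) hKψ
    have hreg : Reg (E : Set Bd) (comap (TL one) (𝓝 1) ⊓ ⨅ i, comap (θ i) (𝓝 (t i))) :=
      (Reg.comap (continuous_TL h1E) 1).inf (Reg.iInf fun i => Reg.comap (hθE i) (t i))
    refine ⟨f, ?_⟩
    rw [neBot_iff]
    intro hbot
    have hbot' : (∅ : Set A) ∈ Lar ⊓ ((comap (TL one) (𝓝 1) ⊓ ⨅ i, comap (θ i) (𝓝 (t i))) ⊓
      comap (fun a => ψ a - TL f a) (𝓝 (ψ 0))) := by
      have : Lar ⊓ ((comap (TL one) (𝓝 1) ⊓ ⨅ i, comap (θ i) (𝓝 (t i))) ⊓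
        comap (fun a => ψ a - TL f a) (𝓝 (ψ 0))) = ⊥ := by
        rw [← hbot, hF, Z0]
        ac_rfl
      rw [this]; trivial
    obtain ⟨W1, hW1, W', hW', he⟩ := mem_inf_iff.1 hbot'
    obtain ⟨W2, hW2, W3, hW3, rfl⟩ := mem_inf_iff.1 hW'
    -- the large part
    unfold Lar at hW1
    obtain ⟨H, hW1⟩ := (mem_iInf_finite _).1 hW1
    obtain ⟨p, hp, rfl⟩ := mem_iInf_finset.1 hW1
    have hp' : ∀ h ∈ H, ∃ M : ℝ, ∀ a, M < |TL h.1 a| → a ∈ p h := by
      intro h hh
      obtain ⟨V, hV, hVp⟩ := mem_comap.1 (hp h hh)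
      obtain ⟨M, hM⟩ := mem_atTop_sets.1 hV
      exact ⟨M, fun a ha => hVp (hM _ ha.le)⟩
    choose! M hM using hp'
    have hMM : ∃ N : ℝ, ∀ h ∈ H, M h ≤ N := by
      obtain ⟨N, hN⟩ := (H.image M).exists_le
      exact ⟨N, fun h hh => hN _ (Finset.mem_image_of_mem _ hh)⟩
    obtain ⟨N, hN⟩ := hMM
    obtain ⟨V, hV, hVW⟩ := mem_comap.1 hW3
    set U : Set A := @interior A (tauE E) W2 with hU
    have hUF : U ∈ comap (TL one) (𝓝 1) ⊓ ⨅ i, comap (θ i) (𝓝 (t i)) := hreg W2 hW2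
    have hUW : U ⊆ W2 := @interior_subset A (tauE E) W2
    have hUo : IsOpen[tauE E] U := @isOpen_interior A (tauE E) W2
    -- decomposition of the dependent elements of `H`
    have hdec : ∀ h : NC, h.1 ∈ E ⊔ Submodule.span ℝ {f} →
        ∃ g ∈ E, ∃ l : ℝ, h.1 = g + l • f := by
      intro h hh
      obtain ⟨g, hg, y, hy, e⟩ := Submodule.mem_sup.1 hh
      obtain ⟨l, rfl⟩ := Submodule.mem_span_singleton.1 hy
      exact ⟨g, hg, l, e.symm⟩
    choose! g hgE l hgl using hdec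
    have hev : ∀ h ∈ H, h.1 ∈ E ⊔ Submodule.span ℝ {f} →
        ∀ᶠ a in F, N < |TL (g h) a + l h * (ψ a - ψ 0)| := by
      intro h _ hh
      by_cases hl : l h = 0
      · have e : h.1 = g h := by
          have := hgl h hh
          rwa [hl, zero_smul, add_zero] at this
        have := (hFlar h.1 h.2).eventually_gt_atTop N
        filter_upwards [this] with a ha
        rw [hl, zero_mul, add_zero, ← e]
        exact ha
      · have h1 := (hc ((l h)⁻¹ • g h)).eventually_gt_atTop (|N| / |l h| + |ψ 0|)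
        filter_upwards [h1] with a ha
        have e : TL (g h) a + l h * (ψ a - ψ 0) =
            l h * ((ψ a + TL ((l h)⁻¹ • g h) a) - ψ 0) := by
          rw [map_smul, Pi.smul_apply, smul_eq_mul]
          field_simp
          ring
        rw [e, abs_mul]
        have h2 : |ψ a + TL ((l h)⁻¹ • g h) a| - |ψ 0| ≤ |(ψ a + TL ((l h)⁻¹ • g h) a) - ψ 0| :=
          abs_sub_abs_le_abs_sub _ _
        have hlp : 0 < |l h| := abs_pos.2 hl
        have h3 : |N| / |l h| < |(ψ a + TL ((l h)⁻¹ • g h) a) - ψ 0| := by linarith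
        rw [div_lt_iff₀ hlp] at h3
        linarith [le_abs_self N]
    have hevU : ∀ᶠ a in F, a ∈ U := by
      have hle : F ≤ comap (TL one) (𝓝 1) ⊓ ⨅ i, comap (θ i) (𝓝 (t i)) :=
        inf_le_inf_right _ inf_le_left
      exact hle hUF
    have hevall : ∀ᶠ a in F, ∀ h ∈ H, h.1 ∈ E ⊔ Submodule.span ℝ {f} →
        N < |TL (g h) a + l h * (ψ a - ψ 0)| := by
      rw [Filter.eventually_all_finset]
      intro h hh
      by_cases hd : h.1 ∈ E ⊔ Submodule.span ℝ {f}
      · filter_upwards [hev h hh hd] with a ha _ using ha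
      · exact Eventually.of_forall fun a hd' => absurd hd' hd
    obtain ⟨a, haU, haH⟩ := (hevU.and hevall).exists
    -- the functional
    let ea : E →ₗ[ℝ] ℝ := ((LinearMap.proj a).comp TL).comp E.subtype
    obtain ⟨b0, hb0, hb0f⟩ := LinearMap.exists_extend_of_notMem ea hf (ψ a - ψ 0)
    have hb0E : ∀ g ∈ E, b0 g = TL g a := fun g hg =>
      congrArg (fun m : E →ₗ[ℝ] ℝ => m ⟨g, hg⟩) hb0
    obtain ⟨b, hb, hbH⟩ := exists_large (E ⊔ Submodule.span ℝ {f}) b0
      ((H.image Subtype.val).filter (fun h => h ∉ E ⊔ Submodule.span ℝ {f}))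
      (fun h hh => (Finset.mem_filter.1 hh).2) N
    have hbE : ∀ g ∈ E, b g = TL g a := fun g hg =>
      (hb g (Submodule.mem_sup_left hg)).trans (hb0E g hg)
    have hbf : b f = ψ a - ψ 0 :=
      (hb f (Submodule.mem_sup_right (Submodule.mem_span_singleton_self f))).trans hb0f
    have hbN : ∀ h ∈ H, N < |b h.1| := by
      intro h hh
      by_cases hd : h.1 ∈ E ⊔ Submodule.span ℝ {f}
      · have := haH h hh hd
        have e : b h.1 = TL (g h) a + l h * (ψ a - ψ 0) := by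
          conv_lhs => rw [hgl h hd]
          rw [map_add, map_smul, hbE _ (hgE h hd), hbf, smul_eq_mul]
        rwa [e]
      · exact hbH h.1 (Finset.mem_filter.2 ⟨Finset.mem_image_of_mem _ hh, hd⟩)
    -- the filter at `b` contains everything
    have hnb : Nb b ≤ @nhds A (tauE E) a := by
      rw [nhds_tauE]
      refine le_iInf fun g => ?_
      rw [← hbE g.1 g.2]
      exact iInf_le (fun g : Bd => comap (TL g) (𝓝 (b g))) g.1
    have c1 : ∀ᶠ x in Nb b, x ∈ U := hnb (@IsOpen.mem_nhds A (tauE E) _ _ hUo haU)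
    have c2 : ∀ᶠ x in Nb b, ∀ h ∈ H, N < |TL h.1 x| := by
      rw [Filter.eventually_all_finset]
      intro h hh
      exact (tendsto_Nb b h.1).abs.eventually (lt_mem_nhds (hbN h hh))
    have c3 : ∀ᶠ x in Nb b, ψ x - TL f x ∈ V := by
      have h1 : Tendsto ψ (Nb b) (𝓝 (ψ a)) :=
        (@Continuous.tendsto A ℝ (tauE E) _ ψ hψE a).mono_left hnb
      have h2 := h1.sub (tendsto_Nb b f)
      rw [hbf, sub_sub_cancel] at h2
      exact h2 hV
    obtain ⟨x, hx1, hx2, hx3⟩ := (c1.and (c2.and c3)).exists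
    have : x ∈ (∅ : Set A) := by
      rw [he]
      refine ⟨?_, hUW hx1, hVW hx3⟩
      simp only [mem_iInter]
      exact fun h hh => hM h hh x ((hN h hh).trans_lt (hx2 h hh))
    exact this
  · -- Case 1
    push Not at hc
    obtain ⟨g, hg⟩ := hc
    rw [tendsto_atTop] at hg
    push Not at hg
    obtain ⟨M, hM⟩ := hg
    have hfr : ∃ᶠ a in F, |ψ a + TL g a| ≤ M := by
      intro h
      apply hM
      filter_upwards [h] with a ha
      exact not_lt.2 (not_le.1 ha).le
    have hne2 : (F ⊓ 𝓟 {a | |ψ a + TL g a| ≤ M}).NeBot := frequently_mem_iff_neBot.1 hfr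
    let U : Ultrafilter A := Ultrafilter.of (F ⊓ 𝓟 {a | |ψ a + TL g a| ≤ M})
    have hUF : (U : Filter A) ≤ F := (Ultrafilter.of_le _).trans inf_le_left
    have hUM : {a | |ψ a + TL g a| ≤ M} ∈ (U : Filter A) :=
      ((Ultrafilter.of_le _).trans inf_le_right) (mem_principal_self _)
    have hIcc : (Ultrafilter.map (fun a => ψ a + TL g a) U : Filter ℝ) ≤ 𝓟 (Icc (-M) M) := by
      rw [le_principal_iff]
      change (fun a => ψ a + TL g a) ⁻¹' (Icc (-M) M) ∈ U
      filter_upwards [hUM] with a ha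
      exact abs_le.1 ha
    obtain ⟨s, _, hs⟩ := isCompact_Icc.ultrafilter_le_nhds _ hIcc
    have hs' : Tendsto (fun a => ψ a + TL g a) (U : Filter A) (𝓝 s) := hs
    refine ⟨-g + (s - ψ 0) • one, ?_⟩
    have h1 : Tendsto (fun a => ψ a - TL (-g + (s - ψ 0) • one) a) (U : Filter A) (𝓝 (ψ 0)) := by
      have h2 := hs'.sub ((hFone.mono_left hUF).const_mul (s - ψ 0))
      have e : s - (s - ψ 0) * 1 = ψ 0 := by ring
      rw [e] at h2
      refine h2.congr fun a => ?_
      rw [map_add, map_neg, map_smul, Pi.add_apply, Pi.neg_apply, Pi.smul_apply, smul_eq_mul]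
      ring
    exact U.neBot.mono (le_inf hUF (tendsto_iff_comap.1 h1))

end

end Pool.Agent.Helper85.CP
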