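import Mathlib
import Pool.Agent.Helper20.CpCondense

/-!
# The space `Y = (ℕ × βℕ) minus a point` is not Lindelof
-/

namespace Pool.Agent.Helper85.CP

open Filter Topology Set
open Pool.Agent.Helper20.CpCondense (X Y p two_free)

/-- countably many members of the free ultrafilter `p` belong to another ultrafilter -/
lemma exists_other (A : ℕ → Set ℕ) (hA : ∀ n, A n ∈ p) :
    ∃ q : Ultrafilter ℕ, q ≠ p ∧ ∀ n, A n ∈ q := by
  have hfreq : ∀ n : ℕ, ∃ᶠ k in atTop, ∀ i ≤ n, k ∈ A i := by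
    intro n
    have h1 : ∀ᶠ k in (hyperfilter ℕ : Filter ℕ), ∀ i ≤ n, k ∈ A i := by
      have : (⋂ i ∈ Finset.range (n+1), A i) ∈ (hyperfilter ℕ : Filter ℕ) :=
        (Filter.biInter_finset_mem _).2 fun i _ => hA i
      filter_upwards [this] with k hk i hi
      simp only [Finset.mem_range, mem_iInter] at hk
      exact hk i (by omega)
    exact h1.frequently.filter_mono Nat.hyperfilter_le_atTop
  obtain ⟨φ, hφ, hφ'⟩ := extraction_forall_of_frequently hfreq
  obtain ⟨ρ, hρ, hne⟩ := two_free hφ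
  refine ⟨(hyperfilter ℕ).map (φ ∘ ρ), hne, fun n => ?_⟩
  change (φ ∘ ρ) ⁻¹' A n ∈ (hyperfilter ℕ : Filter ℕ)
  apply Nat.hyperfilter_le_atTop
  filter_upwards [Filter.eventually_ge_atTop n] with k hk
  exact hφ' (ρ k) n (le_trans hk (hρ.id_le k))

lemma not_lindelof_Y : ¬ LindelofSpace Y := by
  intro hL
  let U : {A : Set ℕ // A ∈ p} → Set Y := fun A => {y | y.1.1 ≠ 0 ∨ A.1 ∉ y.1.2}
  have hopen : ∀ A, IsOpen (U A) := by
    intro A
    have h1 : IsOpen {y : Y | y.1.1 ≠ 0} := by
      have : Continuous fun y : Y => y.1.1 := continuous_fst.comp continuous_subtype_val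
      exact (isOpen_discrete ({0}ᶜ : Set ℕ)).preimage this
    have h2 : IsOpen {y : Y | A.1 ∉ y.1.2} := by
      have : Continuous fun y : Y => y.1.2 := continuous_snd.comp continuous_subtype_val
      exact (ultrafilter_isClosed_basic A.1).isOpen_compl.preimage this
    exact h1.union h2
  have hcov : (univ : Set Y) ⊆ ⋃ A, U A := by
    intro y _
    rw [mem_iUnion]
    by_cases h0 : y.1.1 = 0
    · by_contra hcon
      push Not at hcon
      apply y.2
      have hle : (y.1.2 : Filter ℕ) ≤ (p : Filter ℕ) := by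
        intro A hA
        by_contra hA'
        exact hcon ⟨A, hA⟩ (Or.inr hA')
      have heq : y.1.2 = p := Ultrafilter.eq_of_le hle
      exact Prod.ext h0 heq
    · exact ⟨⟨univ, Filter.univ_mem⟩, Or.inl h0⟩
  obtain ⟨s, hs, hsc⟩ := isLindelof_univ.elim_countable_subcover U hopen hcov
  have : Nonempty {A : Set ℕ // A ∈ p} := ⟨⟨univ, Filter.univ_mem⟩⟩
  obtain ⟨f, hf⟩ := countable_iff_exists_subset_range.1 hs
  obtain ⟨q, hq, hfq⟩ := exists_other (fun n => (f n).1) fun n => (f n).2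
  have hy := hsc (mem_univ (⟨(0, q), fun hh => hq (congrArg Prod.snd hh)⟩ : Y))
  simp only [mem_iUnion] at hy
  obtain ⟨A, hA, hyA⟩ := hy
  obtain ⟨n, rfl⟩ := hf hA
  rcases hyA with h | h
  · exact h rfl
  · exact h (hfq n)

end Pool.Agent.Helper85.CP
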