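import Mathlib
import Pool.Agent.Helper85.CP.Filt

/-!
# Transfinite recursion and the final filter
-/

namespace Pool.Agent.Helper85.CP

open Filter Topology Set Cardinal

noncomputable section

section Recursion

variable {α I B : Type} (F0 : Filter α) (G : I → B → Filter α)

lemma neBot_of_lower [LinearOrder I] (hF0 : F0.NeBot) (φ : I → B) (D : Set I)
    (hD : ∀ i ∈ D, (F0 ⊓ ⨅ j : Iic i, G j.1 (φ j.1)).NeBot) :
    (F0 ⊓ ⨅ j : D, G j.1 (φ j.1)).NeBot := by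
  rcases D.eq_empty_or_nonempty with rfl | hne
  · rw [iInf_of_empty, inf_top_eq]
    exact hF0
  · have := hne.to_subtype
    have hdir : Directed (· ≥ ·) fun i : D => F0 ⊓ ⨅ j : Iic i.1, G j.1 (φ j.1) := by
      have hanti : Antitone fun i : D => F0 ⊓ ⨅ j : Iic i.1, G j.1 (φ j.1) := by
        intro i i' hii'
        refine inf_le_inf_left _ (le_iInf fun j => ?_)
        exact iInf_le (fun j : Iic i'.1 => G j.1 (φ j.1)) ⟨j.1, le_trans j.2 hii'⟩
      exact hanti.directed_ge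
    have hnb := iInf_neBot_of_directed' hdir fun i => (hD i.1 i.2)
    refine hnb.mono (le_inf ?_ (le_iInf fun j => ?_))
    · obtain ⟨i, hi⟩ := hne
      exact (iInf_le _ (⟨i, hi⟩ : D)).trans inf_le_left
    · refine (iInf_le _ j).trans (inf_le_right.trans ?_)
      exact iInf_le (fun k : Iic j.1 => G k.1 (φ k.1)) ⟨j.1, le_rfl⟩

lemma recursion (hI : #I ≤ 𝔠) (hF0 : F0.NeBot) [Nonempty B]
    (hext : ∀ J : Set I, #J < 𝔠 → ∀ φ : I → B, (F0 ⊓ ⨅ j : J, G j.1 (φ j.1)).NeBot →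
      ∀ i, ∃ f, (F0 ⊓ (⨅ j : J, G j.1 (φ j.1)) ⊓ G i f).NeBot) :
    ∃ φ : I → B, (F0 ⊓ ⨅ i, G i (φ i)).NeBot := by
  classical
  obtain ⟨lo, wf, hord⟩ := exists_ord_eq_type_lt I
  let φ : I → B := wf.wf.fix fun i rec =>
    if h : ∃ f, (F0 ⊓ (⨅ j : Iio i, G j.1 (rec j.1 j.2)) ⊓ G i f).NeBot then h.choose
    else Classical.arbitrary B
  have hφ : ∀ i, φ i = if h : ∃ f, (F0 ⊓ (⨅ j : Iio i, G j.1 (φ j.1)) ⊓ G i f).NeBot
      then h.choose else Classical.arbitrary B := fun i => wf.wf.fix_eq _ i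
  have key : ∀ i, (F0 ⊓ ⨅ j : Iic i, G j.1 (φ j.1)).NeBot := by
    intro i
    induction i using wf.wf.induction with
    | _ i ih =>
      have h1 : (F0 ⊓ ⨅ j : Iio i, G j.1 (φ j.1)).NeBot :=
        neBot_of_lower F0 G hF0 φ (Iio i) fun j hj => ih j hj
      have h2 : ∃ f, (F0 ⊓ (⨅ j : Iio i, G j.1 (φ j.1)) ⊓ G i f).NeBot :=
        hext (Iio i) ((mk_Iio_lt i hord).trans_le hI) φ h1 i
      have h3 : (F0 ⊓ (⨅ j : Iio i, G j.1 (φ j.1)) ⊓ G i (φ i)).NeBot := by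
        rw [hφ i, dif_pos h2]
        exact h2.choose_spec
      refine h3.mono (le_inf (inf_le_left.trans inf_le_left) (le_iInf fun j => ?_))
      rcases lt_or_eq_of_le j.2 with hj | hj
      · refine inf_le_left.trans (inf_le_right.trans ?_)
        exact iInf_le (fun j : Iio i => G j.1 (φ j.1)) ⟨j.1, hj⟩
      · rw [hj]
        exact inf_le_right
  refine ⟨φ, ?_⟩
  have := neBot_of_lower F0 G hF0 φ univ fun i _ => key i
  refine this.mono (inf_le_inf_left _ (le_iInf fun i => ?_))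
  exact iInf_le (fun j : (univ : Set I) => G j.1 (φ j.1)) ⟨i, mem_univ i⟩

end Recursion

lemma one_ne_zero' : one ≠ 0 := by
  intro h
  have := congrFun (congrArg Subtype.val h) 0
  change (1 : ℝ) = 0 at this
  exact _root_.one_ne_zero this

lemma Z0_neBot : Z0.NeBot := by
  classical
  rw [neBot_iff]
  intro hbot
  have h1 : (∅ : Set A) ∈ comap (TL one) (𝓝 1) ⊓ Lar := by
    rw [← Z0, hbot]; trivial
  obtain ⟨W3, hW3, W1, hW1, he⟩ := mem_inf_iff.1 h1
  unfold Lar at hW1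
  obtain ⟨H, hW1⟩ := (mem_iInf_finite _).1 hW1
  obtain ⟨p, hp, rfl⟩ := mem_iInf_finset.1 hW1
  have hp' : ∀ h ∈ H, ∃ M : ℝ, ∀ a, M < |TL h.1 a| → a ∈ p h := by
    intro h hh
    obtain ⟨V, hV, hVp⟩ := mem_comap.1 (hp h hh)
    obtain ⟨M, hM⟩ := mem_atTop_sets.1 hV
    exact ⟨M, fun a ha => hVp (hM _ ha.le)⟩
  choose! M hM using hp'
  obtain ⟨N, hN⟩ : ∃ N : ℝ, ∀ h ∈ H, M h ≤ N := by
    obtain ⟨N, hN⟩ := (H.image M).exists_le
    exact ⟨N, fun h hh => hN _ (Finset.mem_image_of_mem _ hh)⟩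
  obtain ⟨V, hV, hVW⟩ := mem_comap.1 hW3
  obtain ⟨b0, -, hb01⟩ := LinearMap.exists_extend_of_notMem (p := (⊥ : Submodule ℝ Bd))
    (0 : (⊥ : Submodule ℝ Bd) →ₗ[ℝ] ℝ) (v := one)
    (by rw [Submodule.mem_bot]; exact one_ne_zero') (1 : ℝ)
  obtain ⟨b, hb, hbH⟩ := exists_large (Submodule.span ℝ {one}) b0 (H.image Subtype.val)
    (fun h hh => by
      obtain ⟨h', _, rfl⟩ := Finset.mem_image.1 hh
      exact h'.2) N
  have hb1 : b one = 1 := (hb one (Submodule.mem_span_singleton_self one)).trans hb01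
  have c2 : ∀ᶠ x in Nb b, ∀ h ∈ H, N < |TL h.1 x| := by
    rw [Filter.eventually_all_finset]
    intro h hh
    exact (tendsto_Nb b h.1).abs.eventually
      (lt_mem_nhds (hbH h.1 (Finset.mem_image_of_mem _ hh)))
  have c3 : ∀ᶠ x in Nb b, TL one x ∈ V := by
    have h2 := tendsto_Nb b one
    rw [hb1] at h2
    exact h2 hV
  obtain ⟨x, hx2, hx3⟩ := (c2.and c3).exists
  have : x ∈ (∅ : Set A) := by
    rw [he]
    refine ⟨hVW hx3, ?_⟩
    simp only [mem_iInter]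
    exact fun h hh => hM h hh x ((hN h hh).trans_lt (hx2 h hh))
  exact this

/-- continuous functions for `tau2` -/
abbrev C2 := {ψ : A → ℝ // Continuous[tau2, _] ψ}

lemma card_C2 : #C2 ≤ 𝔠 := by
  refine (mk_subtype_le _).trans ?_
  rw [← Cardinal.power_def, mk_real]
  have h1 : #A ≤ ℵ₀ := mk_le_aleph0
  calc 𝔠 ^ #A ≤ 𝔠 ^ ℵ₀ := power_le_power_left continuum_ne_zero h1
    _ = 𝔠 := continuum_power_aleph0

lemma cont_sub {X : Type} [TopologicalSpace X] {f g : X → ℝ} (hf : Continuous f)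
    (hg : Continuous g) : Continuous fun x => f x - g x := hf.sub hg

theorem exists_filter : ∃ (F : Filter A) (φ : C2 → Bd), F.NeBot ∧ Tendsto (TL one) F (𝓝 1) ∧
    (∀ h : Bd, h ∉ Submodule.span ℝ ({one} : Set Bd) → Tendsto (fun a => |TL h a|) F atTop) ∧
    ∀ ψ : C2, Tendsto (fun a => ψ.1 a - TL (φ ψ) a) F (𝓝 (ψ.1 0)) := by
  obtain ⟨φ, hφ⟩ := recursion Z0
    (fun (ψ : C2) (f : Bd) => comap (fun a => ψ.1 a - TL f a) (𝓝 (ψ.1 0))) card_C2 Z0_neBot
    (fun J hJ φ hne ψ => extend hJ (fun (j : J) a => j.1.1 a - TL (φ j.1) a)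
      (fun j => @cont_sub A tau2 _ _ j.1.2 (continuous_TL2 _))
      (fun j => j.1.1 0) hne ψ.1 ψ.2)
  refine ⟨_, φ, hφ, ?_, ?_, ?_⟩
  · exact tendsto_iff_comap.2 (inf_le_left.trans inf_le_left)
  · intro h hh
    exact tendsto_iff_comap.2 ((inf_le_left.trans inf_le_right).trans
      (iInf_le (fun h : NC => comap (fun a => |TL h.1 a|) atTop) ⟨h, hh⟩))
  · intro ψ
    exact tendsto_iff_comap.2 (inf_le_right.trans (iInf_le _ ψ))

end

end Pool.Agent.Helper85.CP
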