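import Mathlib
import Pool.Agent.Helper85.CP.Rec

/-!
# The two topologies on the countable set `A`
-/

namespace Pool.Agent.Helper85.CP

open Filter Topology Set Cardinal

noncomputable section

/-- the filter -/
def FF : Filter A := exists_filter.choose

/-- the selection -/
def sel : C2 → Bd := exists_filter.choose_spec.choose

instance FF_neBot : FF.NeBot := exists_filter.choose_spec.choose_spec.1

lemma FF_one : Tendsto (TL one) FF (𝓝 1) := exists_filter.choose_spec.choose_spec.2.1

lemma FF_lar (h : Bd) (hh : h ∉ Submodule.span ℝ ({one} : Set Bd)) :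
    Tendsto (fun a => |TL h a|) FF atTop := exists_filter.choose_spec.choose_spec.2.2.1 h hh

lemma FF_sel (ψ : C2) : Tendsto (fun a => ψ.1 a - TL (sel ψ) a) FF (𝓝 (ψ.1 0)) :=
  exists_filter.choose_spec.choose_spec.2.2.2 ψ

lemma eq_zero_of_tendsto {g : Bd} (hg : Tendsto (TL g) FF (𝓝 0)) : g = 0 := by
  by_cases h : g ∈ Submodule.span ℝ ({one} : Set Bd)
  · obtain ⟨c, rfl⟩ := Submodule.mem_span_singleton.1 h
    have h1 : Tendsto (TL (c • one)) FF (𝓝 (c * 1)) := by
      have := FF_one.const_mul c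
      refine this.congr fun a => ?_
      rw [map_smul, Pi.smul_apply, smul_eq_mul]
    have h2 : c * 1 = 0 := tendsto_nhds_unique h1 hg
    rw [mul_one] at h2
    rw [h2, zero_smul]
  · exfalso
    exact not_tendsto_nhds_of_tendsto_atTop (FF_lar g h) _ hg.abs

/-- the functions continuous for `tau2` which converge along the filter to their value at `0` -/
def C1 : Set (A → ℝ) := {ψ | Continuous[tau2, _] ψ ∧ Tendsto ψ FF (𝓝 (ψ 0))}

/-- the weaker topology -/
@[instance_reducible] def tau1 : TopologicalSpace A :=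
  ⨅ ψ : C1, TopologicalSpace.induced ψ.1 inferInstance

lemma tau2_le_tau1 : tau2 ≤ tau1 := by
  refine le_iInf fun ψ => ?_
  rw [← continuous_iff_le_induced]
  exact ψ.2.1

lemma continuous_of_C1 {ψ : A → ℝ} (h : ψ ∈ C1) : Continuous[tau1, _] ψ := by
  rw [continuous_iff_le_induced]
  exact iInf_le (fun ψ : C1 => TopologicalSpace.induced ψ.1 inferInstance) ⟨ψ, h⟩

lemma FF_le_nhds : FF ≤ @nhds A tau1 0 := by
  unfold tau1
  rw [nhds_iInf]
  refine le_iInf fun ψ => ?_
  rw [nhds_induced, ← tendsto_iff_comap]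
  exact ψ.2.2

lemma mem_C1_iff {ψ : A → ℝ} : ψ ∈ C1 ↔ Continuous[tau1, _] ψ := by
  refine ⟨continuous_of_C1, fun h => ⟨continuous_le_dom tau2_le_tau1 h, ?_⟩⟩
  exact (@Continuous.tendsto A ℝ tau1 _ ψ h 0).mono_left FF_le_nhds

/-- indicator of a point -/
def e (i : ℕ) : Bd := ⟨fun n => if n = i then 1 else 0, 1, fun n => by
  change |if n = i then (1 : ℝ) else 0| ≤ 1
  split_ifs <;> simp⟩

lemma TL_e (i : ℕ) (a : A) : TL (e i) a = a i := by
  change T (e i).1 a = _
  rw [T_eq_sum _ a (Finset.subset_union_left (s₂ := {i}))]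
  simp [e]

lemma e_notMem : e 0 ∉ Submodule.span ℝ ({one} : Set Bd) := by
  intro h
  obtain ⟨c, hc⟩ := Submodule.mem_span_singleton.1 h
  have h0 := congrFun (congrArg Subtype.val hc) 0
  have h1 := congrFun (congrArg Subtype.val hc) 1
  change c * 1 = if 0 = 0 then 1 else 0 at h0
  change c * 1 = if 1 = 0 then 1 else 0 at h1
  simp at h0 h1
  rw [h1] at h0
  exact zero_ne_one h0

lemma sep_aux {a b : A} (hab : a ≠ b) (ha : a ≠ 0) : ∃ ψ ∈ C1, ψ a ≠ ψ b := by
  obtain ⟨i, hi⟩ : ∃ i, a i ≠ b i := by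
    by_contra hcon
    push Not at hcon
    exact hab (Finsupp.ext hcon)
  obtain ⟨j, hj⟩ : ∃ j, a j ≠ 0 := by
    by_contra hcon
    push Not at hcon
    exact ha (Finsupp.ext hcon)
  refine ⟨fun x => max 0 (1 - |TL (e 0) x - TL (e 0) a|) *
    (|TL (e i) x - TL (e i) b| * |TL (e j) x|), ⟨?_, ?_⟩, ?_⟩
  · have h0 := continuous_TL2 (e 0)
    have hi := continuous_TL2 (e i)
    have hj := continuous_TL2 (e j)
    let _ : TopologicalSpace A := tau2
    exact (continuous_const.max (continuous_const.sub (h0.sub continuous_const).abs)).mul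
      ((hi.sub continuous_const).abs.mul hj.abs)
  · have h1 : ∀ᶠ x in FF, max 0 (1 - |TL (e 0) x - TL (e 0) a|) *
        (|TL (e i) x - TL (e i) b| * |TL (e j) x|) = 0 := by
      filter_upwards [(FF_lar (e 0) e_notMem).eventually_gt_atTop (1 + |TL (e 0) a|)] with x hx
      have h2 : |TL (e 0) x| - |TL (e 0) a| ≤ |TL (e 0) x - TL (e 0) a| :=
        abs_sub_abs_le_abs_sub _ _
      rw [max_eq_left (by linarith), zero_mul]
    have h3 : max 0 (1 - |TL (e 0) (0 : A) - TL (e 0) a|) *
        (|TL (e i) (0 : A) - TL (e i) b| * |TL (e j) (0 : A)|) = 0 := by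
      rw [TL_zero_pt (e j)]; simp
    change Tendsto _ FF (𝓝 (max 0 (1 - |TL (e 0) (0 : A) - TL (e 0) a|) *
        (|TL (e i) (0 : A) - TL (e i) b| * |TL (e j) (0 : A)|)))
    rw [h3]
    exact (tendsto_congr' h1).2 tendsto_const_nhds
  · simp only [sub_self, abs_zero, sub_zero, max_eq_right zero_le_one, one_mul, zero_mul, mul_zero]
    rw [TL_e, TL_e, TL_e]
    refine mul_ne_zero (abs_ne_zero.2 (sub_ne_zero.2 ?_)) (abs_ne_zero.2 ?_)
    · exact_mod_cast hi
    · exact_mod_cast hj

lemma sep {a b : A} (hab : a ≠ b) : ∃ ψ ∈ C1, ψ a ≠ ψ b := by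
  by_cases ha : a = 0
  · obtain ⟨ψ, h1, h2⟩ := sep_aux (Ne.symm hab) (by rw [← ha]; exact Ne.symm hab)
    exact ⟨ψ, h1, Ne.symm h2⟩
  · exact sep_aux hab ha

/-- `A` with the topology `tau1` -/
def A1 := A
/-- `A` with the topology `tau2` -/
def A2 := A

instance : TopologicalSpace A1 := tau1
instance : TopologicalSpace A2 := tau2
instance : Countable A1 := inferInstanceAs (Countable A)
instance : Countable A2 := inferInstanceAs (Countable A)

lemma t0_of_sep {X : Type} [TopologicalSpace X]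
    (h : ∀ a b : X, a ≠ b → ∃ ψ : X → ℝ, Continuous ψ ∧ ψ a ≠ ψ b) : T0Space X := by
  refine ⟨fun a b hab => ?_⟩
  by_contra hne
  obtain ⟨ψ, hψ, hψab⟩ := h a b hne
  exact hψab (hab.map hψ).eq

instance : T35Space A1 where
  toT0Space := t0_of_sep fun a b hab => by
    obtain ⟨ψ, h1, h2⟩ := sep hab
    exact ⟨ψ, continuous_of_C1 h1, h2⟩
  toCompletelyRegularSpace := completelyRegularSpace_iInf fun ψ =>
    completelyRegularSpace_induced inferInstance _

instance : T35Space A2 where
  toT0Space := t0_of_sep fun a b hab => by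
    obtain ⟨ψ, h1, h2⟩ := sep hab
    exact ⟨ψ, h1.1, h2⟩
  toCompletelyRegularSpace := completelyRegularSpace_iInf fun g =>
    completelyRegularSpace_induced inferInstance _

end

end Pool.Agent.Helper85.CP
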