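import Mathlib
import Pool.Agent.Helper20.CpDef
import Pool.Agent.Helper20.CpCondense
import Pool.Agent.Helper85.CP.Top
import Pool.Agent.Helper85.CP.Lind

/-!
# The two spaces and the linear condensations
-/

namespace Pool.Agent.Helper85.CP

open Filter Topology Set
open Pool.Agent.Helper20 (Cp)
open Pool.Agent.Helper20.CpCondense (Seq Bdd X Y p yp bddY mk mk_pure res ext_X ext_Y
  res_bijective res_continuous not_sigmaCompact_Y)

noncomputable section

abbrev XX := X ⊕ ((ℕ × A1) ⊕ (ℕ × A2))
abbrev YY := Y ⊕ ((ℕ × A1) ⊕ (ℕ × A2))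

/-! ### separation and compactness properties -/

lemma completelyRegular_sum (V W : Type) [TopologicalSpace V] [TopologicalSpace W]
    [CompletelyRegularSpace V] [CompletelyRegularSpace W] : CompletelyRegularSpace (V ⊕ W) := by
  obtain ⟨u, hu⟩ := CompletelyRegularSpace.exists_uniformSpace (X := V)
  obtain ⟨w, hw⟩ := CompletelyRegularSpace.exists_uniformSpace (X := W)
  subst hu
  subst hw
  infer_instance

instance t35_sum (V W : Type) [TopologicalSpace V] [TopologicalSpace W]
    [T35Space V] [T35Space W] : T35Space (V ⊕ W) where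
  toT0Space := inferInstance
  toCompletelyRegularSpace := completelyRegular_sum V W

instance t35_prod (V W : Type) [TopologicalSpace V] [TopologicalSpace W]
    [T35Space V] [T35Space W] : T35Space (V × W) where
  toT0Space := inferInstance
  toCompletelyRegularSpace := inferInstance

lemma sigma_of_countable (V : Type) [TopologicalSpace V] [Countable V] : SigmaCompactSpace V := by
  refine SigmaCompactSpace.of_countable (range fun x : V => {x}) (countable_range _) ?_ ?_
  · rintro _ ⟨x, rfl⟩
    exact isCompact_singleton
  · ext x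
    simp

instance sigma_prod_A1 : SigmaCompactSpace (ℕ × A1) := sigma_of_countable _

instance sigma_prod_A2 : SigmaCompactSpace (ℕ × A2) := sigma_of_countable _

lemma not_sigmaCompact_YY : ¬ SigmaCompactSpace YY := by
  intro h
  have he : IsClosedEmbedding (Sum.inl : Y → YY) := IsClosedEmbedding.inl
  exact not_sigmaCompact_Y he.sigmaCompactSpace

lemma not_lindelof_YY : ¬ LindelofSpace YY := by
  intro h
  have he : IsClosedEmbedding (Sum.inl : Y → YY) := IsClosedEmbedding.inl
  exact not_lindelof_Y he.LindelofSpace

/-! ### restriction -/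

lemma cont_elim {V W : Type} [TopologicalSpace V] [TopologicalSpace W] {f : V → ℝ} {g : W → ℝ}
    (hf : Continuous f) (hg : Continuous g) : Continuous (Sum.elim f g) := hf.sumElim hg

/-- the inclusion of `YY` in `XX` -/
def incl : YY → XX := Sum.map Subtype.val id

lemma incl_continuous : Continuous incl := continuous_subtype_val.sumMap continuous_id

/-- restriction of functions -/
def Phi : Cp XX →ₗ[ℝ] Cp YY where
  toFun g := ⟨fun y => g.1 (incl y), (show Continuous g.1 from g.2).comp incl_continuous⟩
  map_add' _ _ := rfl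
  map_smul' _ _ := rfl

lemma Phi_continuous : Continuous Phi := by
  refine Continuous.subtype_mk ?_ _
  refine continuous_pi fun y => ?_
  exact (continuous_apply (incl y)).comp continuous_subtype_val

/-- the part on `X` of a function on `XX` -/
def prX (g : Cp XX) : Cp X := ⟨fun x => g.1 (Sum.inl x),
  (show Continuous g.1 from g.2).comp continuous_inl⟩

/-- the part on `Y` of a function on `YY` -/
def prY (g : Cp YY) : Cp Y := ⟨fun x => g.1 (Sum.inl x),
  (show Continuous g.1 from g.2).comp continuous_inl⟩

lemma Phi_bijective : Function.Bijective Phi := by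
  constructor
  · intro g g' h
    apply Subtype.ext
    funext x
    rcases x with x | x
    · have h1 : prX g = prX g' := by
        apply ext_X
        intro i n
        exact congrFun (congrArg Subtype.val h) (Sum.inl (yp i n))
      exact congrFun (congrArg Subtype.val h1) x
    · exact congrFun (congrArg Subtype.val h) (Sum.inr x)
  · intro h
    obtain ⟨g, hg⟩ := res_bijective.2 (prY h)
    refine ⟨⟨Sum.elim g.1 (fun x => h.1 (Sum.inr x)), ?_⟩, ?_⟩
    · exact cont_elim (show Continuous g.1 from g.2)
        ((show Continuous h.1 from h.2).comp continuous_inr)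
    · apply Subtype.ext
      funext x
      rcases x with x | x
      · exact congrFun (congrArg Subtype.val hg) x
      · rfl

/-! ### the other condensation -/

/-- the shift of `X` into `Y` -/
def shX : X → Y := fun x => ⟨(x.1 + 1, x.2), fun h => Nat.succ_ne_zero x.1 (congrArg Prod.fst h)⟩

lemma shX_continuous : Continuous shX := by
  refine Continuous.subtype_mk ?_ _
  have h1 : Continuous fun n : ℕ => n + 1 := continuous_of_discreteTopology
  exact (h1.comp continuous_fst).prodMk continuous_snd

/-- first bounded sequence of a function on `YY` -/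
def fst (h : YY → ℝ) : ℕ → ℝ := fun n => h (Sum.inl (yp 0 n))

lemma fst_bdd (h : Cp YY) : fst h.1 ∈ Bd := bddY (prY h) 0

/-- the values of the second condensation -/
def psi (h : YY → ℝ) : XX → ℝ
  | Sum.inl x => h (Sum.inl (shX x))
  | Sum.inr (Sum.inl (i, a)) => h (Sum.inr (Sum.inl (i + 1, a)))
  | Sum.inr (Sum.inr (0, a)) => T (fst h) a + h (Sum.inr (Sum.inl (0, a)))
  | Sum.inr (Sum.inr (i + 1, a)) => h (Sum.inr (Sum.inr (i, a)))

lemma cont_A1 (h : Cp YY) (i : ℕ) :
    Continuous[tau1, _] fun a : A => h.1 (Sum.inr (Sum.inl (i, a))) := by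
  have h1 : Continuous fun a : A1 => h.1 (Sum.inr (Sum.inl (i, a))) :=
    (show Continuous h.1 from h.2).comp
      (continuous_inr.comp (continuous_inl.comp (Continuous.prodMk_right i)))
  exact h1

lemma cont_A2 (h : Cp YY) (i : ℕ) :
    Continuous[tau2, _] fun a : A => h.1 (Sum.inr (Sum.inr (i, a))) := by
  have h1 : Continuous fun a : A2 => h.1 (Sum.inr (Sum.inr (i, a))) :=
    (show Continuous h.1 from h.2).comp
      (continuous_inr.comp (continuous_inr.comp (Continuous.prodMk_right i)))
  exact h1

lemma cont_A2' (h : Cp XX) (i : ℕ) :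
    Continuous[tau2, _] fun a : A => h.1 (Sum.inr (Sum.inr (i, a))) := by
  have h1 : Continuous fun a : A2 => h.1 (Sum.inr (Sum.inr (i, a))) :=
    (show Continuous h.1 from h.2).comp
      (continuous_inr.comp (continuous_inr.comp (Continuous.prodMk_right i)))
  exact h1

lemma cont_A1' (h : Cp XX) (i : ℕ) :
    Continuous[tau1, _] fun a : A => h.1 (Sum.inr (Sum.inl (i, a))) := by
  have h1 : Continuous fun a : A1 => h.1 (Sum.inr (Sum.inl (i, a))) :=
    (show Continuous h.1 from h.2).comp
      (continuous_inr.comp (continuous_inl.comp (Continuous.prodMk_right i)))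
  exact h1

lemma cont_add {X : Type} [TopologicalSpace X] {f g : X → ℝ} (hf : Continuous f)
    (hg : Continuous g) : Continuous fun x => f x + g x := hf.add hg

lemma psi_cont (h : Cp YY) : Continuous (psi h.1) := by
  rw [continuous_sum_dom, continuous_sum_dom]
  refine ⟨?_, ?_, ?_⟩
  · exact (show Continuous h.1 from h.2).comp (continuous_inl.comp shX_continuous)
  · refine continuous_prod_of_discrete_left.2 fun i => ?_
    exact cont_A1 h (i + 1)
  · refine continuous_prod_of_discrete_left.2 fun i => ?_
    rcases i with _ | i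
    · exact @cont_add A tau2 _ _ (continuous_TL2 ⟨fst h.1, fst_bdd h⟩)
        (continuous_le_dom tau2_le_tau1 (cont_A1 h 0))
    · exact cont_A2 h i

lemma fst_add (g h : YY → ℝ) : fst (g + h) = fst g + fst h := rfl
lemma fst_smul (c : ℝ) (h : YY → ℝ) : fst (c • h) = c • fst h := rfl

/-- the second condensation -/
def Psi : Cp YY →ₗ[ℝ] Cp XX where
  toFun h := ⟨psi h.1, psi_cont h⟩
  map_add' g h := by
    apply Subtype.ext
    funext x
    change psi (g.1 + h.1) x = psi g.1 x + psi h.1 x
    rcases x with x | ⟨i, a⟩ | ⟨i, a⟩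
    · rfl
    · rfl
    · rcases i with _ | i
      · have h1 := T_add (fst g.1) (fst h.1) a
        simp only [psi, fst_add, Pi.add_apply]
        linarith
      · rfl
  map_smul' c h := by
    apply Subtype.ext
    funext x
    change psi (c • h.1) x = c * psi h.1 x
    rcases x with x | ⟨i, a⟩ | ⟨i, a⟩
    · rfl
    · rfl
    · rcases i with _ | i
      · have h1 := T_smul c (fst h.1) a
        simp only [psi, fst_smul, Pi.smul_apply, smul_eq_mul]
        linarith
      · rfl

lemma Psi_continuous : Continuous Psi := by
  refine Continuous.subtype_mk ?_ _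
  refine continuous_pi fun x => ?_
  have hev : ∀ y : YY, Continuous fun h : Cp YY => h.1 y := fun y =>
    (continuous_apply y).comp continuous_subtype_val
  change Continuous fun h : Cp YY => psi h.1 x
  rcases x with x | ⟨i, a⟩ | ⟨i, a⟩
  · exact hev _
  · exact hev _
  · rcases i with _ | i
    · simp only [psi]
      refine Continuous.add ?_ (hev _)
      unfold T fst
      exact continuous_finsetSum _ fun j _ => continuous_const.mul (hev _)
    · exact hev _

lemma Psi_injective : Function.Injective Psi := by
  rw [injective_iff_map_eq_zero]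
  intro h hh
  have hx : ∀ x, psi h.1 x = 0 := fun x => congrFun (congrArg Subtype.val hh) x
  set g : Bd := ⟨fst h.1, fst_bdd h⟩ with hg
  have hu : ∀ a : A, TL g a = -h.1 (Sum.inr (Sum.inl (0, a))) := by
    intro a
    have h1 := hx (Sum.inr (Sum.inr (0, a)))
    simp only [psi] at h1
    change T (fst h.1) a = _
    linarith
  have hg0 : g = 0 := by
    apply eq_zero_of_tendsto
    have h1 : (fun a : A => h.1 (Sum.inr (Sum.inl (0, a)))) ∈ C1 := mem_C1_iff.2 (cont_A1 h 0)
    have h2 := h1.2.neg
    have h3 : -(h.1 (Sum.inr (Sum.inl (0, (0 : A))))) = 0 := by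
      rw [← hu 0, TL_zero_pt]
    simp only at h2
    rw [h3] at h2
    exact h2.congr fun a => (hu a).symm
  have hfst : ∀ n, h.1 (Sum.inl (yp 0 n)) = 0 := fun n =>
    congrFun (congrArg Subtype.val hg0) n
  have hY : prY h = 0 := by
    apply ext_Y
    intro i n
    rcases i with _ | i
    · exact hfst n
    · exact hx (Sum.inl (i, pure n))
  apply Subtype.ext
  funext y
  rcases y with y | ⟨i, a⟩ | ⟨i, a⟩
  · exact congrFun (congrArg Subtype.val hY) y
  · rcases i with _ | i
    · have := hu a
      rw [hg0, map_zero] at this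
      change (0 : ℝ) = -_ at this
      change h.1 (Sum.inr (Sum.inl (0, a))) = 0
      linarith
    · exact hx (Sum.inr (Sum.inl (i, a)))
  · exact hx (Sum.inr (Sum.inr (i + 1, a)))

lemma Psi_surjective : Function.Surjective Psi := by
  intro k
  let z : C2 := ⟨fun a : A => k.1 (Sum.inr (Sum.inr (0, a))), cont_A2' k 0⟩
  let f : Bd := sel z
  let u : A → ℝ := fun a => z.1 a - TL f a
  have hu : u ∈ C1 := by
    refine ⟨@cont_sub A tau2 _ _ z.2 (continuous_TL2 f), ?_⟩
    have h0 : u 0 = z.1 0 := by
      change z.1 0 - TL f 0 = z.1 0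
      rw [TL_zero_pt, sub_zero]
    rw [h0]
    exact FF_sel z
  let y : ℕ → Seq := fun i => Nat.rec f.1 (fun i _ n => k.1 (Sum.inl (i, pure n))) i
  have hy : ∀ i, Bdd (y i) := by
    intro i
    rcases i with _ | i
    · exact f.2
    · exact bddY (res (prX k)) i
  let c : Cp Y := res (mk y hy)
  let v : ℕ × A1 → ℝ := fun x => Nat.rec (u x.2) (fun i _ => k.1 (Sum.inr (Sum.inl (i, x.2)))) x.1
  let w : ℕ × A2 → ℝ := fun x => k.1 (Sum.inr (Sum.inr (x.1 + 1, x.2)))
  have hv : Continuous v := by
    refine continuous_prod_of_discrete_left.2 fun i => ?_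
    rcases i with _ | i
    · exact continuous_of_C1 hu
    · exact cont_A1' k i
  have hw : Continuous w := by
    refine continuous_prod_of_discrete_left.2 fun i => ?_
    exact cont_A2' k (i + 1)
  let h : Cp YY := ⟨Sum.elim c.1 (Sum.elim v w),
    cont_elim (show Continuous c.1 from c.2) (cont_elim hv hw)⟩
  have hc : ∀ i n, c.1 (yp i n) = y i n := fun i n => mk_pure y hy i n
  refine ⟨h, ?_⟩
  apply Subtype.ext
  funext x
  change psi h.1 x = k.1 x
  rcases x with x | ⟨i, a⟩ | ⟨i, a⟩
  · have h1 : (⟨fun x => c.1 (shX x), (show Continuous c.1 from c.2).comp shX_continuous⟩ : Cp X) =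
        prX k := by
      apply ext_X
      intro i n
      exact hc (i + 1) n
    exact congrFun (congrArg Subtype.val h1) x
  · rfl
  · rcases i with _ | i
    · have h1 : fst h.1 = f.1 := by
        funext n
        exact hc 0 n
      simp only [psi]
      rw [h1]
      change TL f a + (z.1 a - TL f a) = z.1 a
      ring
    · rfl

end

end Pool.Agent.Helper85.CP
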